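import Pool.Agent.Lib.MP_1a1aec_lc.Final

/-!
There is a notion of class forcing (two parameter-free formulas) whose truth lemma fails over
every countable transitive model of ZFC. In fact one formula `φ(v₀)` works for all models.

All definitions used in the statement are in `Pool.Agent.Lib.MP_1a1aec_lc.Defs`.
-/

open FirstOrder Pool.Agent.Lib.MP_1a1aec_lc

namespace Pool.Agent.Results.MP_1a1aec_lc.TruthLemmaFails

/-- **Answer to Q1 (yes)**: there is a notion of class forcing, given by two formulas without
parameters, such that over every countable transitive model of ZFC these formulas define a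
partial order whose truth lemma fails; moreover it fails for one and the same formula. -/
theorem result : ∃ Q : Notion, (∀ M : Set ZFSet.{0}, IsCTM M → Q.IsPartialOrderOver M) ∧
    ∃ φ : LSet.Formula (Fin 1), ∀ M : Set ZFSet.{0}, IsCTM M → ¬ Q.TruthLemma M φ :=
  ⟨Pool.Agent.Lib.MP_1a1aec_lc.Q, fun _ hM => isPartialOrder hM.tm,
    phi, fun _ hM => truthLemma_fails hM⟩

end Pool.Agent.Results.MP_1a1aec_lc.TruthLemmaFails
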